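import Pool.Agent.R98.NibMain

/-!
# Packing progressions of fixed length with distinct differences

For every fixed `n ≥ 1`, the length of the shortest interval into which disjoint translates of the
progressions `{d, 2d, ..., nd}`, `d = 1, ..., k`, fit is `(1 + o(1)) n k` as `k → ∞`.
-/

set_option autoImplicit false

open Finset Filter Topology

namespace Pool.Agent.Results.MP_687188_co.Asymptotic

open Pool.Agent.R98

/-- `B_d = {d, 2d, ..., nd}` -/
def B (n d : ℕ) : Finset ℤ := (Icc 1 n).image (fun v : ℕ => (v : ℤ) * d)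

/-- The sets `B_1, ..., B_k` pack into `{1, ..., m}`: there are integers `s_1, ..., s_k` such that
the sets `s_d + B_d` lie in `{1, ..., m}` and are pairwise disjoint. -/
def PacksInto (n k m : ℕ) : Prop :=
  ∃ s : ℕ → ℤ, (∀ d ∈ Icc 1 k, ∀ a ∈ B n d, 1 ≤ s d + a ∧ s d + a ≤ m) ∧
    ∀ d ∈ Icc 1 k, ∀ e ∈ Icc 1 k, d ≠ e → ∀ a ∈ B n d, ∀ b ∈ B n e, s d + a ≠ s e + b

/-- `M_k(n)`: the least `m` such that `B_1, ..., B_k` pack into `{1, ..., m}`. -/
noncomputable def M (n k : ℕ) : ℕ := sInf {m : ℕ | PacksInto n k m}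

lemma packsInto_iff (n k m : ℕ) : PacksInto n k m ↔ Packs (Icc 1 k) (fun _ => n) m := by
  unfold PacksInto Packs B
  simp only [Finset.mem_image, forall_exists_index, and_imp, forall_apply_eq_imp_iff₂]

lemma exists_packsInto (n k : ℕ) : ∃ m, PacksInto n k m := by
  refine ⟨(Icc 1 k).card * (n * k), (packsInto_iff _ _ _).2 (packs_trivial ?_ ?_)⟩
  · intro d hd; exact (Finset.mem_Icc.1 hd).1
  · intro d hd
    exact Nat.mul_le_mul_left _ (Finset.mem_Icc.1 hd).2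

lemma packsInto_M (n k : ℕ) : PacksInto n k (M n k) := Nat.sInf_mem (exists_packsInto n k)

lemma M_le {n k m : ℕ} (h : PacksInto n k m) : M n k ≤ m := Nat.sInf_le h

lemma le_M (n k : ℕ) : n * k ≤ M n k := by
  obtain ⟨s, h1, h2⟩ := (packsInto_iff _ _ _).1 (packsInto_M n k)
  have h3 : (Icc 1 k ×ˢ Icc 1 n).card ≤ (Icc (1 : ℤ) (M n k)).card := by
    apply Finset.card_le_card_of_injOn (fun t => s t.1 + t.2 * t.1)
    · rintro ⟨d, v⟩ ht
      rw [Finset.mem_coe, Finset.mem_product] at ht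
      rw [Finset.mem_coe, Finset.mem_Icc]
      exact h1 d ht.1 v ht.2
    · rintro ⟨d, v⟩ ht ⟨e, w⟩ hu heq
      rw [Finset.mem_coe, Finset.mem_product] at ht hu
      simp only at heq ht hu
      have hde : d = e := by
        by_contra hde
        exact h2 d ht.1 e hu.1 hde v ht.2 w hu.2 heq
      subst hde
      have hd0 : (0 : ℤ) < d := by exact_mod_cast (Finset.mem_Icc.1 ht.1).1
      have h4 : (v : ℤ) * d = w * d := by linarith
      have h5 : (v : ℤ) = w := mul_right_cancel₀ hd0.ne' h4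
      rw [Prod.mk.injEq]
      exact ⟨rfl, by exact_mod_cast h5⟩
  rw [Finset.card_product, Nat.card_Icc, Nat.card_Icc, Int.card_Icc] at h3
  have h4 : ((M n k : ℤ) + 1 - 1).toNat = M n k := by simp
  rw [h4] at h3
  rw [Nat.mul_comm]
  simpa using h3

/-- **Main theorem.** For every fixed `n ≥ 1`, `M_k(n) / (n k) → 1` as `k → ∞`. -/
theorem result : (∀ n k : ℕ, PacksInto n k (M n k) ∧ ∀ m, PacksInto n k m → M n k ≤ m) ∧
    ∀ n : ℕ, 1 ≤ n → Tendsto (fun k : ℕ => (M n k : ℝ) / ((n : ℝ) * k)) atTop (𝓝 1) := by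
  refine ⟨fun n k => ⟨packsInto_M n k, fun m hm => M_le hm⟩, ?_⟩
  intro n hn
  have hn0 : (0 : ℝ) < n := by exact_mod_cast hn
  rw [Metric.tendsto_atTop]
  intro ε hε
  obtain ⟨a, ha⟩ := exists_nat_gt (2 * ((n : ℝ) + 1) / ε)
  have ha0 : (0 : ℝ) < a := lt_of_le_of_lt (by positivity) ha
  have ha1 : 1 ≤ a := by exact_mod_cast ha0
  obtain ⟨k₀, hk₀⟩ := Nib.upper n a hn ha1
  refine ⟨k₀ + 1, ?_⟩
  intro k hk
  have hk1 : 1 ≤ k := by omega
  have hk0 : (0 : ℝ) < k := by exact_mod_cast hk1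
  have hnk : (0 : ℝ) < (n : ℝ) * k := by positivity
  have h1 := M_le ((packsInto_iff _ _ _).2 (hk₀ k (by omega)))
  have h2 : (M n k : ℝ) ≤ n * k + ((n : ℝ) ^ 2 + n) * (2 * ((k / a : ℕ) : ℝ)) := by
    exact_mod_cast h1
  have h3 : ((k / a : ℕ) : ℝ) ≤ k / a := Nat.cast_div_le
  have h4 : (n : ℝ) * k ≤ M n k := by exact_mod_cast le_M n k
  have h5 : (1 : ℝ) ≤ (M n k : ℝ) / ((n : ℝ) * k) := (one_le_div hnk).2 h4
  rw [Real.dist_eq, abs_of_nonneg (by linarith)]
  have h6 : (M n k : ℝ) / ((n : ℝ) * k) ≤ 1 + 2 * ((n : ℝ) + 1) / a := by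
    rw [div_le_iff₀ hnk]
    have h7 : ((n : ℝ) ^ 2 + n) * (2 * ((k / a : ℕ) : ℝ)) ≤ ((n : ℝ) ^ 2 + n) * (2 * (k / a)) := by
      gcongr
    have h8 : (1 + 2 * ((n : ℝ) + 1) / a) * (n * k)
        = n * k + ((n : ℝ) ^ 2 + n) * (2 * (k / a)) := by
      field_simp
    rw [h8]
    linarith
  have h9 : 2 * ((n : ℝ) + 1) / a < ε := by
    rw [div_lt_iff₀ ha0]
    rw [div_lt_iff₀ hε] at ha
    linarith
  linarith

end Pool.Agent.Results.MP_687188_co.Asymptotic
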