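import Pool.Agent.R861.AP.Main

/-!
# MP_687188_co: `M_k(n) = (1 + o(1)) n k` for every fixed `n`
-/

set_option autoImplicit false

namespace Pool.Agent.Results.MP_687188_co.PackingAsymptotic

open Finset Filter Topology

/-- `B_d = {d, 2d, …, nd}` -/
def B (n d : ℕ) : Finset ℕ := (Finset.Icc 1 n).image (fun i => i * d)

/-- The family `A 1, …, A k` of finite sets packs into `[m] = {1, …, m}`: there are integers
`s 1, …, s k` such that the translates `s i + A i` are pairwise disjoint subsets of `[m]`. -/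
def PacksInto (A : ℕ → Finset ℕ) (k m : ℕ) : Prop :=
  ∃ s : ℕ → ℤ,
    (∀ i, 1 ≤ i → i ≤ k → ∀ a ∈ A i, 1 ≤ s i + (a : ℤ) ∧ s i + (a : ℤ) ≤ m) ∧
    (∀ i, 1 ≤ i → i ≤ k → ∀ j, 1 ≤ j → j ≤ k → i ≠ j →
      ∀ a ∈ A i, ∀ b ∈ A j, s i + (a : ℤ) ≠ s j + (b : ℤ))

/-- `M_k(n)`: the least `m` such that `B_1, …, B_k` pack into `[m]` -/
noncomputable def M (k n : ℕ) : ℕ := sInf {m : ℕ | PacksInto (B n) k m}

theorem mem_B {n d a : ℕ} : a ∈ B n d ↔ ∃ i, 1 ≤ i ∧ i ≤ n ∧ i * d = a := by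
  unfold B
  simp only [Finset.mem_image, Finset.mem_Icc]
  constructor
  · rintro ⟨i, ⟨h1, h2⟩, h3⟩; exact ⟨i, h1, h2, h3⟩
  · rintro ⟨i, h1, h2, h3⟩; exact ⟨i, ⟨h1, h2⟩, h3⟩

theorem packs_trivial (n k : ℕ) : PacksInto (B n) k (k * (n * k)) := by
  refine ⟨fun d => ((d : ℤ) - 1) * (n * k), ?_, ?_⟩
  · intro d hd1 hdk a ha
    obtain ⟨i, hi1, hin, rfl⟩ := mem_B.mp ha
    have h1 : (1 : ℤ) ≤ d := by exact_mod_cast hd1
    have h2 : (d : ℤ) ≤ k := by exact_mod_cast hdk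
    have h3 : (1 : ℤ) ≤ i := by exact_mod_cast hi1
    have h4 : (i : ℤ) ≤ n := by exact_mod_cast hin
    have h5 : (i : ℤ) * d ≤ n * k := by
      apply mul_le_mul h4 h2 (by linarith) (by linarith)
    have h6 : (1 : ℤ) ≤ (i : ℤ) * d := by nlinarith
    have h0 : (0 : ℤ) ≤ n * k := by linarith
    push_cast
    constructor
    · have : 0 ≤ ((d : ℤ) - 1) * (n * k) := mul_nonneg (by linarith) h0
      linarith
    · nlinarith
  · intro d hd1 hdk e he1 hek hde a ha b hb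
    obtain ⟨i, hi1, hin, rfl⟩ := mem_B.mp ha
    obtain ⟨j, hj1, hjn, rfl⟩ := mem_B.mp hb
    have bd : ∀ x y : ℕ, 1 ≤ x → x ≤ k → 1 ≤ y → y ≤ n → (1 : ℤ) ≤ (y : ℤ) * x ∧ (y : ℤ) * x ≤ n * k := by
      intro x y h1 h2 h3 h4
      have h1' : (1 : ℤ) ≤ x := by exact_mod_cast h1
      have h2' : (x : ℤ) ≤ k := by exact_mod_cast h2
      have h3' : (1 : ℤ) ≤ y := by exact_mod_cast h3
      have h4' : (y : ℤ) ≤ n := by exact_mod_cast h4
      constructor
      · nlinarith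
      · apply mul_le_mul h4' h2' (by linarith) (by linarith)
    obtain ⟨a1, a2⟩ := bd d i hd1 hdk hi1 hin
    obtain ⟨b1, b2⟩ := bd e j he1 hek hj1 hjn
    have h0 : (0 : ℤ) ≤ n * k := by linarith
    intro h
    push_cast at h
    rcases lt_or_gt_of_ne hde with hlt | hlt
    · have h7 : (d : ℤ) + 1 ≤ e := by exact_mod_cast hlt
      nlinarith
    · have h7 : (e : ℤ) + 1 ≤ d := by exact_mod_cast hlt
      nlinarith

theorem M_isLeast (k n : ℕ) : IsLeast {m : ℕ | PacksInto (B n) k m} (M k n) := by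
  constructor
  · exact Nat.sInf_mem ⟨_, packs_trivial n k⟩
  · intro m hm
    exact Nat.sInf_le hm

theorem lower (n k m : ℕ) (h : PacksInto (B n) k m) : n * k ≤ m := by
  obtain ⟨s, h1, h2⟩ := h
  have hc : ((Finset.Icc 1 k) ×ˢ (Finset.Icc 1 n)).card ≤ (Finset.Icc (1 : ℤ) (m : ℤ)).card := by
    apply Finset.card_le_card_of_injOn (fun p => s p.1 + ((p.2 * p.1 : ℕ) : ℤ))
    · intro p hp
      simp only [Finset.coe_product, Finset.coe_Icc, Set.mem_prod, Set.mem_Icc] at hp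
      have := h1 p.1 hp.1.1 hp.1.2 (p.2 * p.1) (mem_B.mpr ⟨p.2, hp.2.1, hp.2.2, rfl⟩)
      simp only [Finset.coe_Icc, Set.mem_Icc]
      exact this
    · intro p hp p' hp' heq
      simp only [Finset.coe_product, Finset.coe_Icc, Set.mem_prod, Set.mem_Icc] at hp hp'
      simp only at heq
      by_cases hd : p.1 = p'.1
      · rw [hd] at heq
        have h3 : p.2 * p'.1 = p'.2 * p'.1 := by
          have : ((p.2 * p'.1 : ℕ) : ℤ) = ((p'.2 * p'.1 : ℕ) : ℤ) := by linarith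
          exact_mod_cast this
        have h4 : p.2 = p'.2 := Nat.eq_of_mul_eq_mul_right (by omega) h3
        exact Prod.ext hd h4
      · exact absurd heq (h2 p.1 hp.1.1 hp.1.2 p'.1 hp'.1.1 hp'.1.2 hd _
          (mem_B.mpr ⟨p.2, hp.2.1, hp.2.2, rfl⟩) _ (mem_B.mpr ⟨p'.2, hp'.2.1, hp'.2.2, rfl⟩))
  rw [Finset.card_product, Nat.card_Icc, Nat.card_Icc, Int.card_Icc] at hc
  simp at hc
  linarith [mul_comm n k]

theorem upper (n k m : ℕ) (s : ℕ → ℕ) (h : Pool.Agent.R861.AP.Packing n k m s) :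
    PacksInto (B n) k m := by
  obtain ⟨h1, h2⟩ := h
  refine ⟨fun d => (s d : ℤ) + 1 - d, ?_, ?_⟩
  · intro d hd1 hdk a ha
    obtain ⟨i, hi1, hin, rfl⟩ := mem_B.mp ha
    have h3 := h1 d hd1 hdk (i - 1) (by omega)
    obtain ⟨i', rfl⟩ : ∃ i', i = i' + 1 := ⟨i - 1, by omega⟩
    simp only [Nat.add_sub_cancel] at h3
    have h4 : ((s d : ℤ) + i' * d) < m := by exact_mod_cast h3
    have h5 : (0 : ℤ) ≤ (s d : ℤ) + i' * d := by positivity
    push_cast
    constructor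
    · nlinarith
    · nlinarith
  · intro d hd1 hdk e he1 hek hde a ha b hb heq
    obtain ⟨i, hi1, hin, rfl⟩ := mem_B.mp ha
    obtain ⟨j, hj1, hjn, rfl⟩ := mem_B.mp hb
    obtain ⟨i', rfl⟩ : ∃ i', i = i' + 1 := ⟨i - 1, by omega⟩
    obtain ⟨j', rfl⟩ : ∃ j', j = j' + 1 := ⟨j - 1, by omega⟩
    apply h2 d hd1 hdk e he1 hek hde i' (by omega) j' (by omega)
    push_cast at heq
    have h6 : ((s d : ℤ) + i' * d) = (s e : ℤ) + j' * e := by linarith
    exact_mod_cast h6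

/-- **Q1 of MP_687188_co (affirmative answer).** For every fixed `n ≥ 1`, the least length `M_k(n)`
of an interval containing pairwise disjoint translates of the `n`-term progressions with
differences `1, …, k` satisfies `M_k(n) / (n k) → 1`. -/
theorem result (n : ℕ) (hn : 1 ≤ n) :
    (∀ k : ℕ, IsLeast {m : ℕ | PacksInto (B n) k m} (M k n)) ∧
    Tendsto (fun k : ℕ => (M k n : ℝ) / ((n : ℝ) * k)) atTop (𝓝 1) := by
  refine ⟨fun k => M_isLeast k n, ?_⟩
  rw [Metric.tendsto_atTop]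
  intro ε hε
  obtain ⟨K0, hK0⟩ := Pool.Agent.R861.AP.packing n hn (ε / 2) (by linarith)
  refine ⟨K0 + 1, fun k hk => ?_⟩
  obtain ⟨m, s, hs, hm⟩ := hK0 k (by omega)
  have h1 : n * k ≤ M k n := lower n k _ (M_isLeast k n).1
  have h2 : M k n ≤ m := (M_isLeast k n).2 (upper n k m s hs)
  have hn' : (0 : ℝ) < n := by exact_mod_cast hn
  have hk' : (0 : ℝ) < k := by
    have : 0 < k := by omega
    exact_mod_cast this
  have hnk : (0 : ℝ) < (n : ℝ) * k := by positivity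
  have h1' : (n : ℝ) * k ≤ M k n := by exact_mod_cast h1
  have h2' : (M k n : ℝ) ≤ m := by exact_mod_cast h2
  have h3 : 1 ≤ (M k n : ℝ) / ((n : ℝ) * k) := by
    rw [le_div_iff₀ hnk]; linarith
  have h4 : (M k n : ℝ) / ((n : ℝ) * k) ≤ 1 + ε / 2 := by
    rw [div_le_iff₀ hnk]; linarith
  rw [Real.dist_eq, abs_lt]
  constructor <;> linarith

end Pool.Agent.Results.MP_687188_co.PackingAsymptotic
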